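import Pool.Agent.Lib.MP_1a91b9_ntM.DJ.DensB
import Pool.Agent.Lib.MP_1a91b9_ntQ.D.Gd5
import Pool.Agent.Lib.MP_1a91b9_ntQ.B.ClsB

/-!
# MP_1a91b9_nt (multiquadratic base fields), part D: the sets of primes which are good for all the labels

`gdJ`: `A` is a finite set of labels; the label `a` has the classes `k a`, `j a` and the set of primes
`T a ⊆ B`; the labels are pairwise different modulo squares. The sets `S` of primes outside `B` for
which `Gd5 (k a) (j a) (S ∪ T a)` for all `a` have lower density at least `cinf2 ^ #A` in every class.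
-/

set_option autoImplicit false
set_option linter.unusedSectionVars false

namespace Pool.Agent.Lib.MP_1a91b9_ntM

open Finset Pool.Agent.Lib.MP_1a91b9_ntH Pool.Agent.Lib.MP_1a91b9_ntQ Pool.Agent.Lib.MP_1a91b9_ntQ.Da

noncomputable section

/-! ### The matrix without the rows `V` -/

/-- The extension of a vector by zero. -/
def ext0 {ι : Type} [DecidableEq ι] {S : Finset ι} (v : S → ZMod 2) (i : ι) : ZMod 2 :=
  if h : i ∈ S then v ⟨i, h⟩ else 0

theorem ext0_coe {ι : Type} [DecidableEq ι] {S : Finset ι} (v : S → ZMod 2) (i : S) :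
    ext0 v i = v i := by
  unfold ext0
  rw [dif_pos i.2]

theorem NV_of_N {ι κ : Type} [DecidableEq ι] [Fintype κ] [DecidableEq κ] {E : Type} [Fintype E]
    [DecidableEq E] (D : Dat2 ι κ) (c : κ → ZMod 2) (P : κ → E → ZMod 2) (R : Matrix E E (ZMod 2))
    (τ : ι → ZMod 2) (S : Finset ι) (hE : IsEmpty E) (v : S → ZMod 2)
    (h : (D.N c S).mulVec v = 0) :
    (D.NV c P R ∅ τ S).mulVec (vec3 S ∅ (ext0 v) 0 (0 : E → ZMod 2)) = 0 := by
  funext i
  rcases i with i | u | e
  · have h1 := congrFun h i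
    rw [D.N_mulVec] at h1
    rw [NV_inl]
    simp only [Pi.zero_apply, mul_zero, sum_const_zero, add_zero, ext0_coe]
    rw [← sum_coe_sort S fun l => D.s i l * (v i + ext0 v l)]
    simp only [ext0_coe]
    exact h1
  · exact absurd u.2 (notMem_empty _)
  · exact hE.elim e

theorem NV_of_NU {ι κ : Type} [DecidableEq ι] [Fintype κ] [DecidableEq κ] {E : Type} [Fintype E]
    [DecidableEq E] (D : Dat2 ι κ) (c : κ → ZMod 2) (j0 : κ) (x : ZMod 2)
    (τ : ι → ZMod 2) (S : Finset ι) (e0 : E) (hE : ∀ e, e = e0) (v : S ⊕ Unit → ZMod 2)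
    (h : (D.NU c j0 x S).mulVec v = 0) :
    (D.NV c (fun j _ => P1 j0 j ()) (fun _ _ => x) ∅ τ S).mulVec
      (vec3 S ∅ (ext0 fun i => v (Sum.inl i)) 0 fun _ : E => v (Sum.inr ())) = 0 := by
  rw [← NB_P1] at h
  have hbd : ∀ (q : ι) (e : E), D.bd (fun j (_ : E) => P1 j0 j ()) q e = D.bd (P1 j0) q () :=
    fun q e => rfl
  have hs : ∀ f : E → ZMod 2, ∑ e, f e = f e0 := by
    intro f
    rw [sum_eq_single e0 (fun e _ he => absurd (hE e) he) fun h' => absurd (mem_univ _) h']
  have hu : ∀ f : Unit → ZMod 2, ∑ e, f e = f () := fun f => by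
    rw [univ_unique, sum_singleton]
  funext i
  rcases i with i | u | e
  · have h1 := congrFun h (Sum.inl i)
    rw [D.NB_inl, hu] at h1
    rw [NV_inl, hs]
    simp only [Pi.zero_apply, mul_zero, sum_const_zero, zero_add, ext0_coe, hbd]
    rw [← sum_coe_sort S fun l => D.s i l * (v (Sum.inl i) + ext0 (fun i => v (Sum.inl i)) l)]
    simp only [ext0_coe]
    exact h1
  · exact absurd u.2 (notMem_empty _)
  · have h1 := congrFun h (Sum.inr ())
    rw [D.NB_inr, hu] at h1
    rw [NV_inrr, hs]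
    simp only [Pi.zero_apply, mul_zero, sum_const_zero, zero_add, hbd]
    rw [← sum_coe_sort S fun l => D.bd (P1 j0) l () * ext0 (fun i => v (Sum.inl i)) l]
    simp only [ext0_coe]
    exact h1

/-! ### The labels -/

variable {A : Type} [Fintype A] [DecidableEq A]

theorem coB_inj {ι κ : Type} [DecidableEq ι] [Fintype κ] [DecidableEq κ] {B T T' : Finset ι}
    (hT : T ⊆ B) (hT' : T' ⊆ B) {c c' : κ → ZMod 2} (h : coB B T c = coB B T' c') :
    T = T' ∧ c = c' := by
  constructor
  · ext t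
    constructor
    · intro ht
      by_contra hn
      have h1 := congrFun h (Sum.inr ⟨t, hT ht⟩)
      simp only [coB, Sum.elim_inr, if_pos ht, if_neg hn] at h1
      exact absurd h1 one_ne_zero
    · intro ht
      by_contra hn
      have h1 := congrFun h (Sum.inr ⟨t, hT' ht⟩)
      simp only [coB, Sum.elim_inr, if_pos ht, if_neg hn] at h1
      exact absurd h1 zero_ne_one
  · funext j
    exact congrFun h (Sum.inl j)

theorem cv_inj {k l k' l' : ZMod 2} (h : cv k l = cv k' l') : k = k' ∧ l = l' :=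
  ⟨congrFun h 0, congrFun h 1⟩

theorem jj_inj {j j' : Fin 2} (h : jj j = jj j') : j = j' := by
  revert j j'
  decide

/-- **The sets of primes which are good for all the labels have lower density at least
`cinf2 ^ #A` in every class.** -/
theorem gdJ [Nonempty A] {m : ℕ} {B : Finset Pg} {T : A → Finset Pg} (hT : ∀ a, T a ⊆ B)
    (k : A → ZMod 4) (j : A → Fin 2)
    (hinj : ∀ a b, md (k a) = md (k b) → j a = j b → T a = T b → a = b)
    (g : GB m B) {κ₀ : ℝ} (hκ : κ₀ < cinf2 ^ Fintype.card A) :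
    DSB m B g κ₀ fun S => ∀ a, Gd5 (k a) (j a) (S ∪ T a) := by
  classical
  have h2 : ∀ x : ZMod 2, x = 0 ∨ x = 1 := by decide
  have hj2 : ∀ j : Fin 2, j = 0 ∨ j = 1 := by decide
  -- the label is in the class `(0, 0)` and the sum of the `aa` is `0`
  set p : A → Prop := fun a => md (k a) = 0 ∧ j a = 0 ∧ A4 m 0 g.1 + ∑ q ∈ T a, aa q.1 = 0
    with hp
  set c : A → Fin 2 → ZMod 2 := fun a => cv (md (k a)) (jj (j a)) with hc
  set P : ∀ a, Fin 2 → {_u : Unit // p a} → ZMod 2 := fun a i _ => P1 (0 : Fin 2) i () with hP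
  set R : ∀ a, Matrix {_u : Unit // p a} {_u : Unit // p a} (ZMod 2) := fun a _ _ =>
    A4 m 1 g.1 + ∑ q ∈ T a, bb q.1 with hR
  have hcinj : Function.Injective fun a => coB B (T a) (c a) := by
    intro a b hab
    obtain ⟨h3, h4⟩ := coB_inj (hT a) (hT b) hab
    obtain ⟨h5, h6⟩ := cv_inj h4
    exact hinj a b h5 (jj_inj h6) h3
  have hPinj : ∀ a, ∀ x : {_u : Unit // p a} → ZMod 2,
      (∀ j, ∑ e, P a j e * x e = 0) → x = 0 := by
    intro a x h
    funext e
    have h3 := h 0
    rw [sum_eq_single e (fun e' _ he => absurd (Subtype.ext (Subsingleton.elim _ _)) he)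
      fun h' => absurd (mem_univ _) h'] at h3
    simp only [hP, P1, if_true, one_mul] at h3
    exact h3
  refine glueB (densB_P (A := A) (E := fun a => {_u : Unit // p a}) (D := d4) d4_OK (B := B)
    (T := T) (V := fun _ => ∅) hT (fun _ => empty_subset _) (fun _ => disjoint_empty_right _)
    (CclB m B) (CclB_H3 m B) (cl := clB m B) (fun q => rfl) (c := c) hcinj (P := P) (R := R)
    (fun a e f => rfl) hPinj (fun _ _ => 0) g
    (αB := fun b => if h : b ∈ B then (CclB m B).A (Sum.inr ⟨b, h⟩) g else 0)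
    (fun b => by rw [dif_pos b.2]) hκ) fun S hSB hSg hS a => ?_
  obtain ⟨hS1, hS2⟩ := hS a
  have hdisj : Disjoint S (T a) := disjoint_of_subset_right (hT a) hSB
  have hg1 : ∑ q ∈ S, clq m q = g.1 := by
    rw [← hSg, Prod.fst_sum]
    rfl
  have hsa : ∑ q ∈ S ∪ T a, aa q.1 = A4 m 0 g.1 + ∑ q ∈ T a, aa q.1 := by
    rw [sum_union hdisj, ← hg1, A4_zero_sum]
  have hsb : ∑ q ∈ S ∪ T a, bb q.1 = A4 m 1 g.1 + ∑ q ∈ T a, bb q.1 := by
    rw [sum_union hdisj, ← hg1, A4_one_sum]
  refine ⟨fun hkj => ?_, fun hk0 hj0 hsum => ?_, fun hk0 hj0 hsum => ?_⟩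
  · -- the class is not `(0, 0)`
    have hpa : ¬ p a := by
      rintro ⟨h3, h4, _⟩
      rcases hkj with h5 | h5
      · rw [h3] at h5
        exact zero_ne_one h5
      · rw [h4] at h5
        exact absurd h5 (by decide)
    have hE : IsEmpty {_u : Unit // p a} := ⟨fun u => hpa u.2⟩
    have hc0 : c a ≠ 0 := by
      intro h3
      rcases hkj with h5 | h5
      · have h6 : md (k a) = 0 := congrFun h3 0
        rw [h6] at h5
        exact zero_ne_one h5
      · have h6 : jj (j a) = 0 := congrFun h3 1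
        rw [h5] at h6
        exact absurd h6 (by decide)
    have h3 := hS1 fun γ hγ => hc0 (funext fun i => by
      rw [← hγ.1 i, sum_eq_zero fun e _ => (hE.elim e)]
      rfl)
    intro h4
    apply h3
    obtain ⟨v, hv, hv0⟩ := Matrix.exists_mulVec_eq_zero_iff.2 h4
    have e : kc (c a) = fun q => md (k a) * aa q.1 + jj (j a) * bb q.1 :=
      funext fun q => kc_cv _ _ q
    refine Matrix.exists_mulVec_eq_zero_iff.1 ⟨vec3 (S ∪ T a) ∅ (ext0 v) 0 0, fun h5 => hv ?_,
      NV_of_N d4 (c a) (P a) (R a) _ (S ∪ T a) hE v ?_⟩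
    · funext q
      have h6 := congrFun h5 (Sum.inl q)
      rw [← ext0_coe v q]
      exact h6
    · rw [N4_d4, e]
      exact hv0
  · -- the kernel of the Laplacian
    have hpa : ¬ p a := by
      rintro ⟨_, _, h5⟩
      rw [hsa, h5] at hsum
      exact zero_ne_one hsum
    have hE : IsEmpty {_u : Unit // p a} := ⟨fun u => hpa u.2⟩
    have hc0 : c a = 0 := by
      simp only [hc, hk0, hj0]
      funext i
      have h3 : ∀ i, cv 0 (jj 0) i = 0 := by decide
      exact h3 i
    obtain ⟨h3, h4⟩ := hS2 0 ⟨fun i => by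
        rw [hc0, sum_eq_zero fun e _ => (hE.elim e)]
        rfl, fun v hv => absurd hv (notMem_empty _), fun e => hE.elim e⟩
    obtain ⟨q0, hq0⟩ := nonempty_iff_ne_empty.2 h3
    refine ⟨⟨q0, mem_union_left _ hq0⟩, fun v hv => ?_⟩
    have h5 := NV_of_N d4 (c a) (P a) (R a) (fun _ => 0) (S ∪ T a) hE v (by
      rw [N4_d4, hc0, kc_zero]
      exact hv)
    rcases h4 _ h5 with h6 | h6
    · refine ⟨0, fun q => ?_⟩
      rw [← ext0_coe v q]
      exact congrFun h6 (Sum.inl q)
    · refine ⟨1, fun q => ?_⟩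
      rw [← ext0_coe v q]
      exact congrFun h6 (Sum.inl q)
  · -- the kernel of the bordered Laplacian
    have hpa : p a := ⟨hk0, hj0, by rw [← hsa, hsum]⟩
    have hc0 : c a = 0 := by
      simp only [hc, hk0, hj0]
      funext i
      have h3 : ∀ i, cv 0 (jj 0) i = 0 := by decide
      exact h3 i
    have hE : ∀ e : {_u : Unit // p a}, e = ⟨(), hpa⟩ := fun e =>
      Subtype.ext (Subsingleton.elim _ _)
    obtain ⟨h3, h4⟩ := hS2 0 ⟨fun i => by
        rw [hc0]
        simp only [Pi.zero_apply, mul_zero, sum_const_zero],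
      fun v hv => absurd hv (notMem_empty _), fun e => by
        simp only [Pi.zero_apply, mul_zero, sum_const_zero, add_zero, hP, P1, ite_mul, one_mul,
          zero_mul, sum_ite_eq', mem_univ, if_true]
        exact hpa.2.2⟩
    obtain ⟨q0, hq0⟩ := nonempty_iff_ne_empty.2 h3
    refine ⟨⟨q0, mem_union_left _ hq0⟩, fun v hv => ?_⟩
    have h5 := NV_of_NU d4 (c a) 0 (A4 m 1 g.1 + ∑ q ∈ T a, bb q.1) (fun _ => 0) (S ∪ T a)
      (⟨(), hpa⟩ : {_u : Unit // p a}) hE v (by
        rw [B4_d4, hc0, kc_zero, ← hsb]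
        exact hv)
    rcases h4 _ h5 with h6 | h6
    · refine ⟨0, fun q => ?_, congrFun h6 (Sum.inr (Sum.inr ⟨(), hpa⟩))⟩
      have h7 := congrFun h6 (Sum.inl q)
      rw [← ext0_coe (fun i => v (Sum.inl i)) q]
      exact h7
    · refine ⟨1, fun q => ?_, congrFun h6 (Sum.inr (Sum.inr ⟨(), hpa⟩))⟩
      have h7 := congrFun h6 (Sum.inl q)
      rw [← ext0_coe (fun i => v (Sum.inl i)) q]
      exact h7

end

end Pool.Agent.Lib.MP_1a91b9_ntM
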