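import Pool.Agent.Lib.MP_1a91b9_ntM.DJ.Dens
import Pool.Agent.Lib.MP_1a91b9_ntQ.D.Cl4B

/-!
# MP_1a91b9_nt (multiquadratic base fields), part D: the joint densities with a fixed finite set of primes
-/

set_option autoImplicit false
set_option linter.unusedSectionVars false

namespace Pool.Agent.Lib.MP_1a91b9_ntM

open Finset Pool.Agent.Lib.MP_1a91b9_ntH Pool.Agent.Lib.MP_1a91b9_ntQ Pool.Agent.Lib.MP_1a91b9_ntQ.Da

noncomputable section

/-- The kernel of one element. -/
theorem ker_one {ι κ : Type} [DecidableEq ι] [Fintype κ] {E : Type} [Fintype E] [DecidableEq E]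
    {D : Dat2 ι κ} {c : κ → ZMod 2} {P : κ → E → ZMod 2}
    {R : Matrix E E (ZMod 2)} {S : Finset ι} (h : D.kB c P R S = 1) (v : S ⊕ E → ZMod 2)
    (hv : (D.NB c P R S).mulVec v = 0) : v = 0 := by
  have h1 : Fintype.card {v : S ⊕ E → ZMod 2 // (D.NB c P R S).mulVec v = 0} ≤ 1 := h.le
  have h2 := Fintype.card_le_one_iff.1 h1 ⟨v, hv⟩ ⟨0, Matrix.mulVec_zero _⟩
  exact congrArg Subtype.val h2

variable {A : Type} [Fintype A] [DecidableEq A] {ι : Type} [DecidableEq ι]
  {κ : Type} [Fintype κ] [DecidableEq κ] {E : A → Type} [∀ a, Fintype (E a)]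
  [∀ a, DecidableEq (E a)] {G : Type} [AddCommGroup G] [Fintype G] [PS ι]

/-- All the matrices without a trivial vector are nonsingular and the kernels of the others are
generated by the trivial vectors. -/
def OKV {ι : Type} [DecidableEq ι] {κ : Type} [Fintype κ] [DecidableEq κ] {A : Type} {E : A → Type}
    [∀ a, Fintype (E a)] [∀ a, DecidableEq (E a)] (D : Dat2 ι κ) (T V : A → Finset ι)
    (c : A → κ → ZMod 2) (P : ∀ a, κ → E a → ZMod 2) (R : ∀ a, Matrix (E a) (E a) (ZMod 2))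
    (τ : A → ι → ZMod 2) (αB : ι → ZMod 2) (α : κ → ZMod 2) (S : Finset ι) : Prop :=
  ∀ a, ((∀ γ, ¬ TrivV D (c a) (P a) (R a) (T a) (V a) αB α γ) →
      (D.NV (c a) (P a) (R a) (V a) (τ a) (S ∪ T a)).det ≠ 0) ∧
    ∀ γ, TrivV D (c a) (P a) (R a) (T a) (V a) αB α γ →
      S ≠ ∅ ∧ ∀ w, (D.NV (c a) (P a) (R a) (V a) (τ a) (S ∪ T a)).mulVec w = 0 →
        w = 0 ∨ w = Sum.elim (fun _ => 1) (Sum.elim (fun _ => 0) γ)

open Classical in
/-- **Part D, jointly, with a fixed finite set of primes**: with lower density at least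
`cinf2 ^ #A`, all the matrices without a trivial vector are nonsingular and the kernels of the others
are generated by the trivial vectors. -/
theorem densB_P [Nonempty A] {D : Dat2 ι κ} (hD : D.OK) {B : Finset ι} {T V : A → Finset ι}
    (hT : ∀ a, T a ⊆ B) (hV : ∀ a, V a ⊆ B) (hTV : ∀ a, Disjoint (T a) (V a))
    (C : Cl2 (D.off B) G) (h3 : C.H3) {cl : ι → G} (hcl : ∀ q, C.cl q = cl q.1)
    {c : A → κ → ZMod 2} (hc : Function.Injective fun a => coB B (T a) (c a))
    {P : ∀ a, κ → E a → ZMod 2} {R : ∀ a, Matrix (E a) (E a) (ZMod 2)}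
    (hR : ∀ a e f, R a e f = R a f e)
    (hP : ∀ a, ∀ x : E a → ZMod 2, (∀ j, ∑ e, P a j e * x e = 0) → x = 0)
    (τ : A → ι → ZMod 2) (g : G) {αB : ι → ZMod 2} (hα : ∀ b : B, αB b = C.A (Sum.inr b) g)
    {κ₀ : ℝ} (hκ : κ₀ < cinf2 ^ Fintype.card A) (ε : ℝ) (hε : 0 < ε) :
    ∃ X₀ : ℕ, ∀ X : ℕ, X₀ ≤ X →
      κ₀ * ((SB B cl g X).card : ℝ) - ε * X ≤
        ((SB B cl g X).filter
          (OKV D T V c P R τ αB fun j => C.A (Sum.inl j) g)).card := by
  obtain ⟨X0, h0⟩ := dens_P (A := A) (E := fun a => T a ⊕ (V a ⊕ E a)) (OK_off hD B) C h3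
    (c := fun a => coB B (T a) (c a)) hc (P := fun a => PoB B (T a) (V a) (P a))
    (R := fun a => RoB D (T a) (V a) (c a) (P a) (R a) (τ a) αB)
    (fun a => RoB_symm hD.sym (T a) (V a) (c a) (P a) (hR a) (τ a) αB)
    (fun a => PoB_inj (hT a) (hV a) (hTV a) (hP a)) g hκ ε hε
  refine ⟨X0, fun X hX => ?_⟩
  rw [SB_eq C hcl, filter_map, card_map, card_map]
  refine (h0 X hX).trans ?_
  rw [Nat.cast_le]
  refine card_le_card fun S hS => ?_
  rw [mem_filter] at hS ⊢
  obtain ⟨hS1, hS2, hS3⟩ := hS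
  refine ⟨hS1, fun a => ?_⟩
  have hαS : ∀ t ∈ T a, αB t = ∑ q ∈ up S, D.s q t := by
    intro t ht
    rw [hα ⟨t, hT a ht⟩, ← sum_a_of_mem C hS1, sum_up]
    rfl
  have hk := hS3 a
  have htr := triv_iff (D := D) (c := c a) (P := P a) (R := R a) (αB := αB)
    (α := fun j => C.A j g) (hT a) (hV a) (hTV a) (τ a) hα
  constructor
  · intro hn
    rw [tP, if_neg (fun h => by
      obtain ⟨γ, hγ⟩ := htr.1 h
      exact hn γ hγ)] at hk
    intro h
    obtain ⟨w, hw, hw0⟩ := Matrix.exists_mulVec_eq_zero_iff.2 h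
    obtain ⟨x, y, z, rfl⟩ := exists_vec3 w
    have h4 := (NV_iff hD.sym (hT a) (hV a) (c a) (P a) (R a) (τ a) αB S hαS x y z).1 hw0
    have h5 := ker_one hk _ h4
    apply hw
    have h6 : vecO B (T a) (V a) S x y z = vecO B (T a) (V a) S 0 0 0 := by
      rw [h5]
      funext i
      rcases i with i | t | v | e <;> rfl
    have h7 := vecO_eq h6
    show vec3 (up S ∪ T a) (V a) x y z = 0
    rw [h7]
    funext i
    rcases i with i | v | e <;> rfl
  · intro γ hγ
    have hTr := htr.2 ⟨γ, hγ⟩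
    rw [tP, if_pos hTr] at hk
    have h2 : ∀ e, ∑ j, PoB B (T a) (V a) (P a) j e * C.A j g +
        ∑ f, RoB D (T a) (V a) (c a) (P a) (R a) (τ a) αB e f * goB (T a) (V a) γ f = 0 := by
      obtain ⟨γ', h5, h6⟩ := hTr
      have h7 : γ' = goB (T a) (V a) γ := by
        have h8 : γ' - goB (T a) (V a) γ = 0 :=
          PoB_inj (hT a) (hV a) (hTV a) (hP a) _ fun j => by
            simp only [Pi.sub_apply, mul_sub, sum_sub_distrib]
            rw [h5, goB_fst hγ.1, sub_self]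
        exact sub_eq_zero.1 h8
      rw [← h7]
      exact h6
    have h9 : ((D.off B).NB (coB B (T a) (c a)) (PoB B (T a) (V a) (P a))
        (RoB D (T a) (V a) (c a) (P a) (R a) (τ a) αB) S).mulVec
          (Sum.elim (fun _ => 1) (goB (T a) (V a) γ)) = 0 := by
      refine triv_mulVec (D.off B) (goB_fst hγ.1) fun e => ?_
      simp only [sum_a_of_mem C hS1]
      exact h2 e
    have hne0 : (Sum.elim (fun _ => 1) (goB (T a) (V a) γ) :
        S ⊕ (T a ⊕ (V a ⊕ E a)) → ZMod 2) ≠ 0 := by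
      intro h4
      obtain ⟨q, hq⟩ := nonempty_iff_ne_empty.2 hS2
      exact one_ne_zero (congrFun h4 (Sum.inl ⟨q, hq⟩))
    refine ⟨fun h => hS2 ?_, fun w hw => ?_⟩
    · have h5 : up S = ∅ := h
      rw [← dn_up S, h5]
      rfl
    · obtain ⟨x, y, z, rfl⟩ := exists_vec3 w
      have h4 := (NV_iff hD.sym (hT a) (hV a) (c a) (P a) (R a) (τ a) αB S hαS x y z).1 hw
      rcases ker_two hk hne0 h9 _ h4 with h5 | h5
      · left
        have h6 : vecO B (T a) (V a) S x y z = vecO B (T a) (V a) S 0 0 0 := by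
          rw [h5]
          funext i
          rcases i with i | t | v | e <;> rfl
        have h7 := vecO_eq h6
        show vec3 (up S ∪ T a) (V a) x y z = 0
        rw [h7]
        funext i
        rcases i with i | v | e <;> rfl
      · right
        have h6 : vecO B (T a) (V a) S x y z = vecO B (T a) (V a) S (fun _ => 1) 0 γ := by
          rw [h5]
          funext i
          rcases i with i | t | v | e <;> rfl
        have h7 := vecO_eq h6
        show vec3 (up S ∪ T a) (V a) x y z = _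
        rw [h7]
        rfl

end

end Pool.Agent.Lib.MP_1a91b9_ntM
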