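import Pool.Agent.Lib.MP_1a91b9_ntM.DJ.Dec
import Pool.Agent.Lib.MP_1a91b9_ntQ.D.DAlgQ

/-!
# MP_1a91b9_nt (multiquadratic base fields), part D: the expansion of the products of the powers of
the sizes of the kernels, and the limit of their weighted mean values
-/

set_option autoImplicit false
set_option linter.unusedSectionVars false

namespace Pool.Agent.Lib.MP_1a91b9_ntM

open Finset Pool.Agent.Lib.MP_1a91b9_ntH Pool.Agent.Lib.MP_1a91b9_ntQ Pool.Agent.Lib.MP_1a91b9_ntQ.Da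

noncomputable section

variable {A : Type} [Fintype A] [DecidableEq A] {k : A → ℕ} {ι : Type} [DecidableEq ι]
  {κ : Type} [Fintype κ] [DecidableEq κ] {E : A → Type} [∀ a, Fintype (E a)]
  [∀ a, DecidableEq (E a)]

/-- The exponents of the pairs. -/
def PhiP (l m : LabP k) : ZMod 2 := ∑ a, PhiQ (l a) (m a)

theorem PhiP_self (l : LabP k) : PhiP l l = 0 := sum_eq_zero fun a _ => PhiQ_self (l a)

theorem PhiP_add (l m : LabP k) : PhiP l m + PhiP m l = QP (l - m) := by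
  simp only [PhiP, QP, ← sum_add_distrib, PhiQ_add]
  rfl

/-- The label system of the product. -/
def LSP (ι : Type) (k : A → ℕ) (c : A → κ → ZMod 2) (P : ∀ a, κ → E a → ZMod 2)
    (m : ∀ a, E a → Lab2 (k a)) : LS2 (LabP k) ι κ where
  Phi := PhiP
  c := cP c P m
  t := fun _ _ => 0
  B := ∅
  m := ∏ a, 2 ^ k a

variable (c : A → κ → ZMod 2) (P : ∀ a, κ → E a → ZMod 2) (R : ∀ a, Matrix (E a) (E a) (ZMod 2))
  (m : ∀ a, E a → Lab2 (k a))

theorem LSP_lk (l l' : LabP k) : (LSP ι k c P m).lk l l' = QP (l - l') := PhiP_add l l'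

theorem LSP_Unl (U : Finset (LabP k)) : (LSP ι k c P m).Unl U ↔ UnlP U := by
  rw [LS2.Unl, UnlP]
  simp only [LSP_lk]

theorem LSP_OK (hk : ∃ a, 1 ≤ k a) : (LSP ι k c P m).OK where
  diag := PhiP_self
  two := by
    show 2 ≤ ∏ a, 2 ^ k a
    rw [prod_two_pow]
    obtain ⟨a, ha⟩ := hk
    have h1 : 1 ≤ ∑ a, k a := ha.trans (single_le_sum (fun _ _ => Nat.zero_le _) (mem_univ a))
    calc 2 = 2 ^ 1 := by norm_num
      _ ≤ 2 ^ ∑ a, k a := Nat.pow_le_pow_right (by norm_num) h1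
  k1 := fun U hU => K1P ((LSP_Unl c P m U).1 hU)
  k2 := fun U hU hc x hx => by
    have hU' := (LSP_Unl c P m U).1 hU
    have hc' : U.card = ∏ a, 2 ^ k a := hc
    have hne : U.Nonempty := by
      rw [← card_pos, hc']
      exact prod_pos fun a _ => by positivity
    obtain ⟨l0, hl0⟩ := hne
    by_contra hcon
    push Not at hcon
    refine hx (K2P hU' hc' (QP (l0 - x)) fun l hl => ?_)
    have := hcon l hl l0 hl0
    rw [LSP_lk, LSP_lk] at this
    exact this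

theorem card_MsLS (tr : (κ → ZMod 2) → Prop) :
    ((LSP ι k c P m).Ms tr).card = ∑ c0 ∈ by classical exact univ.filter tr, (MsP c P m c0).card := by
  classical
  rw [← card_biUnion]
  · congr 1
    ext U
    rw [LS2.mem_Ms, LS2.mem_Us, LSP_Unl, mem_biUnion]
    constructor
    · rintro ⟨⟨h1, h2⟩, c0, h3, h4⟩
      exact ⟨c0, mem_filter.2 ⟨mem_univ _, h3⟩, mem_MsP.2 ⟨h1, h2, fun l hl => (h4 l hl).1⟩⟩
    · rintro ⟨c0, h3, h4⟩
      obtain ⟨h5, h6, h7⟩ := mem_MsP.1 h4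
      exact ⟨⟨h5, h6⟩, c0, (mem_filter.1 h3).2, fun l hl => ⟨h7 l hl, fun p _ => rfl⟩⟩
  · intro c0 _ c1 _ hne
    refine disjoint_left.2 fun U h0 h1 => hne ?_
    obtain ⟨_, h3, h4⟩ := mem_MsP.1 h0
    obtain ⟨_, _, h5⟩ := mem_MsP.1 h1
    have hU : U.Nonempty := by
      rw [← card_pos, h3]
      exact prod_pos fun a _ => by positivity
    obtain ⟨l, hl⟩ := hU
    rw [← h4 l hl, ← h5 l hl]

/-- The main term of the class character `c0`. -/
def TEP (k : A → ℕ) (c : A → κ → ZMod 2) (P : ∀ a, κ → E a → ZMod 2)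
    (R : ∀ a, Matrix (E a) (E a) (ZMod 2)) (c0 : κ → ZMod 2) : ℂ :=
  ∑ m : (∀ a, E a → Lab2 (k a)), (∏ a, e2 (RF (R a) (m a))) * ((MsP c P m c0).card : ℂ)

/-- The main term is the convolution product of the single main terms. -/
theorem TEP_eq (hc : Function.Injective c) (c0 : κ → ZMod 2) :
    TEP k c P R c0 = ∑ y : A → κ → ZMod 2, if ∑ a, y a = c0 then
      ∏ a, TE (k a) (c a) (P a) (R a) (y a) else 0 := by
  classical
  have h1 : ∀ m : (∀ a, E a → Lab2 (k a)), (∏ a, e2 (RF (R a) (m a))) * ((MsP c P m c0).card : ℂ) =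
      ∑ y : A → κ → ZMod 2, if ∑ a, y a = c0 then
        ∏ a, (e2 (RF (R a) (m a)) * ((MsE (c a) (P a) (m a) (y a)).card : ℂ)) else 0 := by
    intro m
    rw [card_MsP hc, Nat.cast_sum, mul_sum]
    refine sum_congr rfl fun y _ => ?_
    split_ifs
    · rw [Nat.cast_prod, prod_mul_distrib]
    · rw [Nat.cast_zero, mul_zero]
  rw [TEP, sum_congr rfl fun m _ => h1 m, sum_comm]
  refine sum_congr rfl fun y _ => ?_
  split_ifs
  · simp only [TE]
    rw [Finset.prod_univ_sum, Fintype.piFinset_univ]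
  · exact sum_const_zero

/-- **The sum of the main terms is the product of the single sums.** -/
theorem TEP_sum (hc : Function.Injective c) (α : κ → ZMod 2) :
    ∑ c0, e2 (∑ j, c0 j * α j) * TEP k c P R c0 =
      ∏ a, ∑ c0, e2 (∑ j, c0 j * α j) * TE (k a) (c a) (P a) (R a) c0 := by
  classical
  have h1 : ∀ c0 : κ → ZMod 2, e2 (∑ j, c0 j * α j) * TEP k c P R c0 =
      ∑ y : A → κ → ZMod 2, if ∑ a, y a = c0 then
        e2 (∑ j, c0 j * α j) * ∏ a, TE (k a) (c a) (P a) (R a) (y a) else 0 := by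
    intro c0
    rw [TEP_eq c P R hc, mul_sum]
    refine sum_congr rfl fun y _ => ?_
    split_ifs
    · rfl
    · exact mul_zero _
  rw [sum_congr rfl fun c0 _ => h1 c0, sum_comm, Finset.prod_univ_sum, Fintype.piFinset_univ]
  refine sum_congr rfl fun y _ => ?_
  rw [sum_ite_eq, if_pos (mem_univ _), prod_mul_distrib, ← e2_sum]
  congr 2
  rw [sum_comm]
  refine sum_congr rfl fun j _ => ?_
  rw [Finset.sum_apply, sum_mul]

/-- The exponent of a labelling is the sum of the exponents. -/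
theorem eS_LSP (D : Dat2 ι κ) (S : Finset ι) (f : S → LabP k) :
    D.eS (LSP ι k c P m) S f =
      ∑ a, D.eS (LSE ι (k a) (c a) (P a) (m a)) S fun s => f s a := by
  have h1 : ∀ (l : LabP k) (q : ι), D.lin (LSP ι k c P m) l q =
      ∑ a, D.lin (LSE ι (k a) (c a) (P a) (m a)) (l a) q := by
    intro l q
    unfold Dat2.lin Dat2.ex LSP LSE
    simp only [sum_empty, add_zero, cP, sum_mul]
    exact sum_comm
  have h2 : ∀ j l : S, (LSP ι k c P m).Phi (f j) (f l) * D.s j l =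
      ∑ a, (LSE ι (k a) (c a) (P a) (m a)).Phi (f j a) (f l a) * D.s j l := by
    intro j l
    show (∑ a, PhiQ (f j a) (f l a)) * D.s j l = _
    rw [sum_mul]
    rfl
  unfold Dat2.eS
  simp only [h1, h2, sum_add_distrib]
  congr 1
  · exact sum_comm
  · have h3 : ∀ j : S, ∑ l : S, ∑ a, (LSE ι (k a) (c a) (P a) (m a)).Phi (f j a) (f l a) *
        D.s j l = ∑ a, ∑ l : S, (LSE ι (k a) (c a) (P a) (m a)).Phi (f j a) (f l a) *
        D.s j l := fun j => sum_comm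
    simp only [h3]
    exact sum_comm

/-- The product of the powers of the sizes of the kernels. -/
def kP (D : Dat2 ι κ) (k : A → ℕ) (S : Finset ι) : ℕ := ∏ a, D.kB (c a) (P a) (R a) S ^ k a

theorem kP_mul (D : Dat2 ι κ) (S : Finset ι) :
    (kP c P R D k S : ℂ) * ((∏ a, (2 : ℂ) ^ k a) ^ S.card * ∏ a, ((2 : ℂ) ^ k a) ^ Fintype.card (E a)) =
      ∑ m : (∀ a, E a → Lab2 (k a)), (∏ a, e2 (RF (R a) (m a))) *
        ∑ f : S → LabP k, e2 (D.eS (LSP ι k c P m) S f) := by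
  classical
  have h1 : (kP c P R D k S : ℂ) * ((∏ a, (2 : ℂ) ^ k a) ^ S.card *
      ∏ a, ((2 : ℂ) ^ k a) ^ Fintype.card (E a)) =
      ∏ a, ((D.kB (c a) (P a) (R a) S : ℂ) ^ k a * (2 ^ k a) ^ (S.card + Fintype.card (E a))) := by
    rw [kP, Nat.cast_prod, prod_mul_distrib]
    congr 1
    · exact prod_congr rfl fun a _ => by rw [Nat.cast_pow]
    · rw [← prod_pow, ← prod_mul_distrib]
      exact prod_congr rfl fun a _ => by rw [pow_add]
  rw [h1, prod_congr rfl fun a _ => kB_pow_mul (k := k a) D (c a) (P a) (R a) S,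
    Finset.prod_univ_sum, Fintype.piFinset_univ]
  refine sum_congr rfl fun m _ => ?_
  rw [prod_mul_distrib]
  congr 1
  rw [Finset.prod_univ_sum, Fintype.piFinset_univ,
    ← Equiv.sum_comp (Equiv.piComm fun (_ : S) (a : A) => Lab2 (k a))]
  refine sum_congr rfl fun f _ => ?_
  rw [eS_LSP, e2_sum]
  rfl

variable [PS ι]

/-- The weighted mean values. -/
def MoP (D : Dat2 ι κ) (k : A → ℕ) (g : ι → ℂ) (X : ℕ) : ℂ :=
  ∑ S ∈ Sx ι X, (∏ q ∈ S, g q) * (kP c P R D k S : ℂ)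

theorem MoP_eq (D : Dat2 ι κ) (g : ι → ℂ) (X : ℕ) :
    MoP c P R D k g X * ∏ a, ((2 : ℂ) ^ k a) ^ Fintype.card (E a) =
      ∑ m : (∀ a, E a → Lab2 (k a)), (∏ a, e2 (RF (R a) (m a))) * ∑ S ∈ Sx ι X,
        ((((LSP ι k c P m).m : ℂ)⁻¹) ^ S.card * (∏ q ∈ S, g q) *
          ∑ f : S → LabP k, e2 (D.eS (LSP ι k c P m) S f)) := by
  rw [MoP, sum_mul]
  have h2 : ∀ m : (∀ a, E a → Lab2 (k a)), (((LSP ι k c P m).m : ℕ) : ℂ) = ∏ a, (2 : ℂ) ^ k a := by
    intro m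
    show (((∏ a, 2 ^ k a : ℕ)) : ℂ) = _
    push_cast
    rfl
  have hk : (∏ a, (2 : ℂ) ^ k a) ≠ 0 := prod_ne_zero_iff.2 fun a _ => pow_ne_zero _ (by norm_num)
  have h1 : ∀ S ∈ Sx ι X, (∏ q ∈ S, g q) * (kP c P R D k S : ℂ) *
      ∏ a, ((2 : ℂ) ^ k a) ^ Fintype.card (E a) =
      ∑ m : (∀ a, E a → Lab2 (k a)), (∏ a, e2 (RF (R a) (m a))) *
        ((((LSP ι k c P m).m : ℂ)⁻¹) ^ S.card * (∏ q ∈ S, g q) *
          ∑ f : S → LabP k, e2 (D.eS (LSP ι k c P m) S f)) := by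
    intro S _
    have h3 := kP_mul (k := k) c P R D S
    have h4 : ∀ m : (∀ a, E a → Lab2 (k a)), (∏ a, e2 (RF (R a) (m a))) *
        ((((LSP ι k c P m).m : ℂ)⁻¹) ^ S.card * (∏ q ∈ S, g q) *
          ∑ f : S → LabP k, e2 (D.eS (LSP ι k c P m) S f)) =
        ((∏ a, (2 : ℂ) ^ k a)⁻¹) ^ S.card * (∏ q ∈ S, g q) * ((∏ a, e2 (RF (R a) (m a))) *
          ∑ f : S → LabP k, e2 (D.eS (LSP ι k c P m) S f)) := by
      intro m
      rw [h2 m]
      ring
    rw [sum_congr rfl fun m _ => h4 m, ← mul_sum, ← h3]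
    have h5 : ((∏ a, (2 : ℂ) ^ k a)⁻¹) ^ S.card * (∏ a, (2 : ℂ) ^ k a) ^ S.card = 1 := by
      rw [← mul_pow, inv_mul_cancel₀ hk, one_pow]
    linear_combination (-(∏ q ∈ S, g q) * (kP c P R D k S : ℂ) *
      ∏ a, ((2 : ℂ) ^ k a) ^ Fintype.card (E a)) * h5
  rw [sum_congr rfl h1, sum_comm]
  exact sum_congr rfl fun m _ => (mul_sum _ _ _).symm

open Classical in
/-- The limit of the weighted mean values. -/
theorem MoP_lim {D : Dat2 ι κ} (hD : D.OK) {g : ι → ℂ} {tr : (κ → ZMod 2) → Prop}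
    (hw : D.Wt ∅ g tr) (hk : ∃ a, 1 ≤ k a) (ε : ℝ) (hε : 0 < ε) :
    ∃ X₀ : ℕ, ∀ X : ℕ, X₀ ≤ X →
    ‖MoP c P R D k g X * ∏ a, ((2 : ℂ) ^ k a) ^ Fintype.card (E a) -
      (∑ c0 ∈ univ.filter tr, TEP k c P R c0) * ((Sx ι X).card : ℂ)‖ ≤ ε * X := by
  have hN : (0 : ℝ) < Fintype.card (∀ a, E a → Lab2 (k a)) := by
    exact_mod_cast Fintype.card_pos
  choose X0 h0 using fun m : (∀ a, E a → Lab2 (k a)) =>
    Pool.Agent.Lib.MP_1a91b9_ntQ.D.engine D hD (LSP ι k c P m) (LSP_OK c P m hk) (g := g)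
      (tr := tr) hw (ε / Fintype.card (∀ a, E a → Lab2 (k a))) (by positivity)
  refine ⟨∑ m, X0 m, fun X hX => ?_⟩
  have hXt : ∀ m, X0 m ≤ X := fun m =>
    (single_le_sum (fun _ _ => Nat.zero_le _) (mem_univ m)).trans hX
  have hS : (Sx ι X).filter (fun S => Disjoint S ∅) = Sx ι X :=
    filter_true_of_mem fun S _ => disjoint_empty_right S
  have h1 : ∑ c0 ∈ univ.filter tr, TEP k c P R c0 =
      ∑ m : (∀ a, E a → Lab2 (k a)), (∏ a, e2 (RF (R a) (m a))) *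
        (((LSP ι k c P m).Ms tr).card : ℂ) := by
    simp only [TEP]
    rw [sum_comm]
    refine sum_congr rfl fun m _ => ?_
    rw [card_MsLS, Nat.cast_sum, mul_sum]
  rw [MoP_eq, h1, sum_mul, ← sum_sub_distrib]
  calc ‖∑ m : (∀ a, E a → Lab2 (k a)), ((∏ a, e2 (RF (R a) (m a))) * ∑ S ∈ Sx ι X,
        ((((LSP ι k c P m).m : ℂ)⁻¹) ^ S.card * (∏ q ∈ S, g q) *
          ∑ f : S → LabP k, e2 (D.eS (LSP ι k c P m) S f)) -
        (∏ a, e2 (RF (R a) (m a))) * (((LSP ι k c P m).Ms tr).card : ℂ) *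
          ((Sx ι X).card : ℂ))‖
      ≤ ∑ m : (∀ a, E a → Lab2 (k a)), ε / Fintype.card (∀ a, E a → Lab2 (k a)) * X := by
        refine (norm_sum_le _ _).trans (sum_le_sum fun m _ => ?_)
        have h2 := h0 m X (hXt m)
        have h3 : (LSP ι k c P m).B = ∅ := rfl
        rw [h3, hS] at h2
        rw [mul_assoc, ← mul_sub, norm_mul, norm_prod, prod_congr rfl fun a _ => norm_e2 _,
          prod_const_one, one_mul]
        exact h2
    _ = ε * X := by
        rw [sum_const, card_univ, nsmul_eq_mul]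
        field_simp

end

end Pool.Agent.Lib.MP_1a91b9_ntM
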