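import Pool.Agent.Lib.MP_1a91b9_ntM.DJ.Exp

/-!
# MP_1a91b9_nt (multiquadratic base fields), part D: the joint moments of the sizes of the kernels in
the classes
-/

set_option autoImplicit false
set_option linter.unusedSectionVars false

namespace Pool.Agent.Lib.MP_1a91b9_ntM

open Finset Pool.Agent.Lib.MP_1a91b9_ntH Pool.Agent.Lib.MP_1a91b9_ntQ Pool.Agent.Lib.MP_1a91b9_ntQ.Da

noncomputable section

section Gen

variable {ι : Type} [DecidableEq ι] {κ : Type} [Fintype κ] [DecidableEq κ] {G : Type}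
  [AddCommGroup G] [Fintype G] [PS ι]

open Classical in
/-- The mean values in a class, from the weighted mean values. -/
theorem sum_gen {D : Dat2 ι κ} (C : Cl2 D G) (h3 : C.H3) (g : G) (F : Finset ι → ℕ) (W ν : ℝ)
    (hW1 : 1 ≤ W) (hν : 0 ≤ ν) (TEf : (κ → ZMod 2) → ℂ)
    (hlim : ∀ (ψ : AddChar G ℂ) (ε : ℝ), 0 < ε → ∃ X₀ : ℕ, ∀ X : ℕ, X₀ ≤ X →
      ‖(∑ S ∈ Sx ι X, (∏ q ∈ S, ψ (C.cl q)) * (F S : ℂ)) * (W : ℂ) -
        (∑ c0 ∈ univ.filter (trG C ψ), TEf c0) * ((Sx ι X).card : ℂ)‖ ≤ ε * X)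
    (hc : ∑ c0, e2 (∑ j, c0 j * C.A j g) * TEf c0 = W * (ν : ℂ))
    (ε : ℝ) (hε : 0 < ε) : ∃ X₀ : ℕ, ∀ X : ℕ, X₀ ≤ X →
      |∑ S ∈ SG C g X, (F S : ℝ) - ν * (SG C g X).card| ≤ ε * X := by
  have hG : (0 : ℝ) < Fintype.card G := Nat.cast_pos.2 Fintype.card_pos
  set ε' : ℝ := ε / (1 + W * ν) with hε'
  have hpos : 0 < ε' := by positivity
  choose X1 h1 using fun ψ : AddChar G ℂ => hlim ψ ε' hpos
  obtain ⟨X2, h2⟩ := card_SG C h3 g ε' hpos
  refine ⟨∑ ψ, X1 ψ + X2, fun X hX => ?_⟩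
  have hX1 : ∀ ψ, X1 ψ ≤ X := fun ψ =>
    (single_le_sum (fun _ _ => Nat.zero_le _) (mem_univ ψ)).trans
      ((Nat.le_add_right _ _).trans hX)
  have hX2 : X2 ≤ X := (Nat.le_add_left _ _).trans hX
  have h4 := h2 X hX2
  have e1 : ∑ S ∈ SG C g X, (F S : ℂ) =
      (∑ ψ : AddChar G ℂ, ψ (-g) * ∑ S ∈ Sx ι X, (∏ q ∈ S, ψ (C.cl q)) * (F S : ℂ)) /
        Fintype.card G := sum_SG C g X _
  have e2' := sum_trG C g TEf
  rw [hc] at e2'
  have e3 : (∑ S ∈ SG C g X, (F S : ℂ)) * W -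
      W * ν * (ZG C g / Fintype.card G * ((Sx ι X).card : ℂ)) =
      (∑ ψ : AddChar G ℂ, ψ (-g) * ((∑ S ∈ Sx ι X, (∏ q ∈ S, ψ (C.cl q)) * (F S : ℂ)) * W -
        (∑ c0 ∈ univ.filter (trG C ψ), TEf c0) * ((Sx ι X).card : ℂ))) / Fintype.card G := by
    have e4 : ∑ ψ : AddChar G ℂ, ψ (-g) *
        ((∑ S ∈ Sx ι X, (∏ q ∈ S, ψ (C.cl q)) * (F S : ℂ)) * W -
          (∑ c0 ∈ univ.filter (trG C ψ), TEf c0) * ((Sx ι X).card : ℂ)) =
        (∑ ψ : AddChar G ℂ, ψ (-g) * ∑ S ∈ Sx ι X, (∏ q ∈ S, ψ (C.cl q)) * (F S : ℂ)) * W -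
        (∑ ψ : AddChar G ℂ, ψ (-g) * ∑ c0 ∈ univ.filter (trG C ψ), TEf c0) *
          ((Sx ι X).card : ℂ) := by
      rw [sum_mul, sum_mul, ← sum_sub_distrib]
      exact sum_congr rfl fun ψ _ => by ring
    rw [e4, e2', e1]
    ring
  have h5 : ‖(∑ S ∈ SG C g X, (F S : ℂ)) * W -
      W * ν * (ZG C g / Fintype.card G * ((Sx ι X).card : ℂ))‖ ≤ ε' * X := by
    rw [e3, norm_div, Complex.norm_natCast, div_le_iff₀ hG]
    refine (norm_sum_le _ _).trans ?_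
    have hcard : (Fintype.card (AddChar G ℂ) : ℝ) = Fintype.card G := by
      rw [AddChar.card_eq]
    calc ∑ ψ : AddChar G ℂ, ‖ψ (-g) *
          ((∑ S ∈ Sx ι X, (∏ q ∈ S, ψ (C.cl q)) * (F S : ℂ)) * W -
            (∑ c0 ∈ univ.filter (trG C ψ), TEf c0) * ((Sx ι X).card : ℂ))‖
        ≤ ∑ _ψ : AddChar G ℂ, ε' * X := by
          refine sum_le_sum fun ψ _ => ?_
          rw [norm_mul, AddChar.norm_apply, one_mul]
          exact h1 ψ X (hX1 ψ)
      _ = ε' * X * Fintype.card G := by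
          rw [sum_const, card_univ, nsmul_eq_mul, hcard]
          ring
  have h6 : ((∑ S ∈ SG C g X, (F S : ℝ) - ν * (SG C g X).card : ℝ) : ℂ) * W =
      ((∑ S ∈ SG C g X, (F S : ℂ)) * W -
        W * ν * (ZG C g / Fintype.card G * ((Sx ι X).card : ℂ))) -
      W * ν * (((SG C g X).card : ℂ) - ZG C g / Fintype.card G * ((Sx ι X).card : ℂ)) := by
    push_cast
    ring
  have h7 : |∑ S ∈ SG C g X, (F S : ℝ) - ν * (SG C g X).card| * W ≤
      ε' * X + W * ν * (ε' * X) := by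
    have h8 : |∑ S ∈ SG C g X, (F S : ℝ) - ν * (SG C g X).card| * W =
        ‖((∑ S ∈ SG C g X, (F S : ℝ) - ν * (SG C g X).card : ℝ) : ℂ) * W‖ := by
      rw [norm_mul, Complex.norm_real, Complex.norm_real, Real.norm_eq_abs, Real.norm_eq_abs,
        abs_of_pos (by linarith : 0 < W)]
    rw [h8, h6]
    refine (norm_sub_le _ _).trans (add_le_add h5 ?_)
    rw [norm_mul, norm_mul, Complex.norm_real, Complex.norm_real, Real.norm_eq_abs,
      Real.norm_eq_abs, abs_of_pos (by linarith : 0 < W), abs_of_nonneg hν]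
    exact mul_le_mul_of_nonneg_left h4 (by positivity)
  have h9 : ε' * X + W * ν * (ε' * X) = ε * X := by
    rw [hε']
    field_simp
  rw [h9] at h7
  exact (le_mul_of_one_le_right (abs_nonneg _) hW1).trans h7

end Gen

variable {A : Type} [Fintype A] [DecidableEq A] {ι : Type} [DecidableEq ι]
  {κ : Type} [Fintype κ] [DecidableEq κ] {E : A → Type} [∀ a, Fintype (E a)]
  [∀ a, DecidableEq (E a)] {G : Type} [AddCommGroup G] [Fintype G] [PS ι]

open Classical in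
/-- The limit of the `k`-th moment of the `a`-th matrix in the class `g`. -/
def nuP (c : A → κ → ZMod 2) (P : ∀ a, κ → E a → ZMod 2) (R : ∀ a, Matrix (E a) (E a) (ZMod 2))
    (α : κ → ZMod 2) (k : A → ℕ) (a : A) : ℝ :=
  Nk2 (k a) * (if Triv (c a) (P a) (R a) α then 2 ^ k a else 1)

/-- **The joint moments in the classes.** -/
theorem mom_P {D : Dat2 ι κ} (hD : D.OK) (C : Cl2 D G) (h3 : C.H3) {c : A → κ → ZMod 2}
    (hc : Function.Injective c) {P : ∀ a, κ → E a → ZMod 2}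
    {R : ∀ a, Matrix (E a) (E a) (ZMod 2)} (hR : ∀ a e f, R a e f = R a f e)
    (hP : ∀ a, ∀ x : E a → ZMod 2, (∀ j, ∑ e, P a j e * x e = 0) → x = 0) (g : G) (k : A → ℕ)
    (ε : ℝ) (hε : 0 < ε) : ∃ X₀ : ℕ, ∀ X : ℕ, X₀ ≤ X →
      |∑ S ∈ SG C g X, (kP c P R D k S : ℝ) -
        (∏ a, nuP c P R (fun j => C.A j g) k a) * (SG C g X).card| ≤ ε * X := by
  classical
  by_cases hk : ∃ a, 1 ≤ k a
  · have h0 : ∀ a, 0 ≤ nuP c P R (fun j => C.A j g) k a := by
      intro a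
      rw [nuP]
      split_ifs <;> positivity
    refine sum_gen C h3 g (kP c P R D k) (∏ a, ((2 : ℝ) ^ k a) ^ Fintype.card (E a)) _ ?_
      (prod_nonneg fun a _ => h0 a) (TEP k c P R) ?_ ?_ ε hε
    · calc (1 : ℝ) = ∏ _a : A, (1 : ℝ) := prod_const_one.symm
        _ ≤ _ := prod_le_prod (fun _ _ => zero_le_one) fun a _ =>
          one_le_pow₀ (one_le_pow₀ (by norm_num))
    · intro ψ ε' hε'
      obtain ⟨X0, hX0⟩ := MoP_lim (k := k) c P R hD (wtG C h3 ψ) hk ε' hε'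
      refine ⟨X0, fun X hX => ?_⟩
      have h1 := hX0 X hX
      rw [MoP] at h1
      push_cast
      exact h1
    · rw [TEP_sum c P R hc]
      have h1 : ∀ a, ∑ c0, e2 (∑ j, c0 j * C.A j g) * TE (k a) (c a) (P a) (R a) c0 =
          ((2 : ℂ) ^ k a) ^ Fintype.card (E a) *
            ((nuP c P R (fun j => C.A j g) k a : ℝ) : ℂ) := fun a =>
        TE_sum (hR a) (hP a) fun j => C.A j g
      rw [prod_congr rfl fun a _ => h1 a, prod_mul_distrib]
      push_cast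
      rfl
  · push Not at hk
    have hk0 : ∀ a, k a = 0 := fun a => by
      have := hk a
      omega
    refine ⟨0, fun X _ => ?_⟩
    have h1 : ∀ S, kP c P R D k S = 1 := fun S =>
      prod_eq_one fun a _ => by rw [hk0 a, pow_zero]
    have h2 : ∀ a, nuP c P R (fun j => C.A j g) k a = 1 := by
      intro a
      rw [nuP, hk0 a]
      simp [Nk2]
    simp only [h1, h2, prod_const_one, Nat.cast_one, sum_const, nsmul_eq_mul, mul_one, one_mul,
      sub_self, abs_zero]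
    positivity

end

end Pool.Agent.Lib.MP_1a91b9_ntM
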